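import Pool.Agent.W5h2.GE.PP
import Pool.Agent.W5h2.GP.Quot

/-!
# Groups of two by two matrices over a ring with a valuation
-/

set_option autoImplicit false

namespace Pool.Agent.W5h2.GE

open Pool.Agent.Y110.FJ
open Pool.Agent.R941.FJ (C_equiv C_le C_cyc mem_sup_normal)
open Pool.Agent.R684.FP (IsFreeProd FbC main_all)
open Pool.Agent.W5h2.GP (Tori tori_cyc)
open Pool.Agent.Y462.SS (Closed)

variable {C : ∀ (G : Type) [Group G], Prop}

section defs

variable {R : Type} [Ring R]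

/-- the matrix with rows `1, m` and `0, 1` -/
def trv (m : R) : (Matrix (Fin 2) (Fin 2) R)ˣ where
  val := !![1, m; 0, 1]
  inv := !![1, -m; 0, 1]
  val_inv := by
    ext i j
    fin_cases i <;> fin_cases j <;> simp [Matrix.mul_apply, Fin.sum_univ_two]
  inv_val := by
    ext i j
    fin_cases i <;> fin_cases j <;> simp [Matrix.mul_apply, Fin.sum_univ_two]

theorem trv_add (m n : R) : trv (m + n) = trv m * trv n := by
  apply Units.ext
  ext i j
  fin_cases i <;> fin_cases j <;>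
    simp [trv, Matrix.mul_apply, Fin.sum_univ_two, add_comm]

theorem trv_zero : trv (0 : R) = 1 := by
  apply Units.ext
  ext i j
  fin_cases i <;> fin_cases j <;> simp [trv]

theorem trv_neg (m : R) : trv (-m) = (trv m)⁻¹ := by
  rw [eq_inv_iff_mul_eq_one, ← trv_add, neg_add_cancel, trv_zero]

/-- The group of the matrices with rows `1, m` and `0, 1`, where `m` is in `M`. -/
def upper (M : AddSubgroup R) : Subgroup (Matrix (Fin 2) (Fin 2) R)ˣ where
  carrier := {u | ∃ m ∈ M, u = trv m}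
  one_mem' := ⟨0, zero_mem M, trv_zero.symm⟩
  mul_mem' := by
    rintro _ _ ⟨m, hm, rfl⟩ ⟨n, hn, rfl⟩
    exact ⟨m + n, add_mem hm hn, (trv_add m n).symm⟩
  inv_mem' := by
    rintro _ ⟨m, hm, rfl⟩
    exact ⟨-m, neg_mem hm, (trv_neg m).symm⟩

theorem trv_inj {m n : R} (h : trv m = trv n) : m = n := by
  have h1 := congrArg (fun u : (Matrix (Fin 2) (Fin 2) R)ˣ => (u : Matrix (Fin 2) (Fin 2) R) 0 1) h
  simpa [trv] using h1

end defs

section main

variable {R Γ : Type} [Ring R] [LinearOrderedCommGroupWithZero Γ] {v : Valuation R Γ}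
  {M : AddSubgroup R} {H : Subgroup (Matrix (Fin 2) (Fin 2) R)ˣ}

/-- the conditions on the subgroup `H` -/
structure Adm (v : Valuation R Γ) (M : AddSubgroup R)
    (H : Subgroup (Matrix (Fin 2) (Fin 2) R)ˣ) : Prop where
  pos : ∀ m ∈ M, m ≠ 0 → 1 < v m
  le : ∀ h ∈ H, ∀ i j, v (h.1 i j) ≤ 1
  low : ∀ h ∈ H, h.1 1 0 ≠ 0 → v (h.1 1 0) = 1
  nor : ∀ h ∈ H, h.1 1 0 = 0 → ∀ m ∈ M, h.1 0 0 * m * (h⁻¹).1 1 1 ∈ M

theorem inv_low (d : Adm v M H) {h : (Matrix (Fin 2) (Fin 2) R)ˣ} (hh : h ∈ H)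
    (h0 : h.1 1 0 = 0) : (h⁻¹).1 1 0 = 0 := by
  have h1 : (h⁻¹).1 1 0 * h.1 0 0 = 0 := by
    have := congrFun (congrFun h.inv_mul 1) 0
    rw [Matrix.mul_apply, Fin.sum_univ_two, h0, mul_zero, add_zero] at this
    simpa using this
  have h2 : (h⁻¹).1 0 0 * h.1 0 0 = 1 := by
    have := congrFun (congrFun h.inv_mul 0) 0
    rw [Matrix.mul_apply, Fin.sum_univ_two, h0, mul_zero, add_zero] at this
    simpa using this
  by_contra hne
  have h3 := d.low h⁻¹ (inv_mem hh) hne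
  have h4 : v ((h⁻¹).1 1 0 * h.1 0 0) = 0 := by rw [h1, map_zero]
  rw [map_mul, h3, one_mul] at h4
  have h5 : v ((h⁻¹).1 0 0 * h.1 0 0) = 1 := by rw [h2, map_one]
  rw [map_mul, h4, mul_zero] at h5
  exact zero_ne_one h5

/-- the upper triangular elements of `H` -/
def H0 (d : Adm v M H) : Subgroup (Matrix (Fin 2) (Fin 2) R)ˣ where
  carrier := {h | h ∈ H ∧ h.1 1 0 = 0}
  one_mem' := ⟨one_mem H, by simp⟩
  mul_mem' := by
    rintro a b ⟨ha, ha'⟩ ⟨hb, hb'⟩
    refine ⟨mul_mem ha hb, ?_⟩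
    rw [Units.val_mul, Matrix.mul_apply, Fin.sum_univ_two, ha', hb']
    simp
  inv_mem' := by
    rintro a ⟨ha, ha'⟩
    exact ⟨inv_mem ha, inv_low d ha ha'⟩

theorem conj_trv (d : Adm v M H) {h : (Matrix (Fin 2) (Fin 2) R)ˣ} (hh : h ∈ H)
    (h0 : h.1 1 0 = 0) (m : R) : h * trv m * h⁻¹ = trv (h.1 0 0 * m * (h⁻¹).1 1 1) := by
  have h1 := inv_low d hh h0
  rw [mul_inv_eq_iff_eq_mul]
  apply Units.ext
  have e00 : (h⁻¹).1 1 1 * h.1 1 1 = 1 := by
    have := congrFun (congrFun h.inv_mul 1) 1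
    rw [Matrix.mul_apply, Fin.sum_univ_two, h1, zero_mul, zero_add] at this
    simpa using this
  ext i j
  rw [Units.val_mul, Units.val_mul, Matrix.mul_apply, Matrix.mul_apply, Fin.sum_univ_two,
    Fin.sum_univ_two]
  fin_cases i <;> fin_cases j <;> simp [trv, h0, mul_assoc, e00, add_comm]

/-- the set for the ping-pong -/
def PS (v : Valuation R Γ) : Set (Matrix (Fin 2) (Fin 2) R)ˣ :=
  {q | v (q.1 1 1) < v (q.1 0 1) ∧ 1 < v (q.1 0 1)}

theorem ps1 (d : Adm v M H) {m : R} (hm : m ∈ M) (h : trv m ≠ 1) : trv m ∈ PS v := by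
  have hm0 : m ≠ 0 := by
    rintro rfl
    exact h trv_zero
  have h1 := d.pos m hm hm0
  constructor
  · show v ((!![1, m; 0, 1] : Matrix (Fin 2) (Fin 2) R) 1 1) <
      v ((!![1, m; 0, 1] : Matrix (Fin 2) (Fin 2) R) 0 1)
    simpa using h1
  · show 1 < v ((!![1, m; 0, 1] : Matrix (Fin 2) (Fin 2) R) 0 1)
    simpa using h1

theorem ps2 (d : Adm v M H) {m : R} (hm : m ∈ M) (h : trv m ≠ 1)
    {g : (Matrix (Fin 2) (Fin 2) R)ˣ} (hg : g ∈ H) (hg0 : g.1 1 0 ≠ 0)
    {q : (Matrix (Fin 2) (Fin 2) R)ˣ} (hq : q ∈ PS v) : trv m * g * q ∈ PS v := by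
  have hm0 : m ≠ 0 := by
    rintro rfl
    exact h trv_zero
  have hm1 := d.pos m hm hm0
  obtain ⟨hq1, hq2⟩ := hq
  obtain ⟨x, hx⟩ : ∃ x, x = q.1 0 1 := ⟨_, rfl⟩
  obtain ⟨y, hy⟩ : ∃ y, y = q.1 1 1 := ⟨_, rfl⟩
  rw [← hx, ← hy] at hq1
  rw [← hx] at hq2
  have hx0 : (0 : Γ) < v x := zero_lt_one.trans hq2
  have e1 : (g * q).1 0 1 = g.1 0 0 * x + g.1 0 1 * y := by
    rw [Units.val_mul, Matrix.mul_apply, Fin.sum_univ_two, hx, hy]
  have e2 : (g * q).1 1 1 = g.1 1 0 * x + g.1 1 1 * y := by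
    rw [Units.val_mul, Matrix.mul_apply, Fin.sum_univ_two, hx, hy]
  have v2 : v ((g * q).1 1 1) = v x := by
    rw [e2]
    have h1 : v (g.1 1 0 * x) = v x := by rw [map_mul, d.low g hg hg0, one_mul]
    have h2 : v (g.1 1 1 * y) < v (g.1 1 0 * x) := by
      rw [h1, map_mul]
      calc v (g.1 1 1) * v y ≤ 1 * v y := mul_le_mul_left (d.le g hg 1 1) (v y)
        _ = v y := one_mul _
        _ < v x := hq1
    exact (Valuation.map_add_eq_of_lt_left _ h2).trans h1
  have v1 : v ((g * q).1 0 1) ≤ v x := by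
    rw [e1]
    refine (v.map_add _ _).trans (max_le ?_ ?_)
    · rw [map_mul]
      calc v (g.1 0 0) * v x ≤ 1 * v x := mul_le_mul_left (d.le g hg 0 0) (v x)
        _ = v x := one_mul _
    · rw [map_mul]
      calc v (g.1 0 1) * v y ≤ 1 * v y := mul_le_mul_left (d.le g hg 0 1) (v y)
        _ = v y := one_mul _
        _ ≤ v x := hq1.le
  have e3 : (trv m * g * q).1 0 1 = (g * q).1 0 1 + m * (g * q).1 1 1 := by
    rw [mul_assoc, Units.val_mul, Matrix.mul_apply, Fin.sum_univ_two]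
    simp [trv]
  have e4 : (trv m * g * q).1 1 1 = (g * q).1 1 1 := by
    rw [mul_assoc, Units.val_mul, Matrix.mul_apply, Fin.sum_univ_two]
    simp [trv]
  have v3 : v x < v (m * (g * q).1 1 1) := by
    rw [map_mul, v2]
    calc v x = 1 * v x := (one_mul _).symm
      _ < v m * v x := by exact (mul_lt_mul_iff_left₀ hx0).2 hm1
  have v4 : v ((trv m * g * q).1 0 1) = v (m * (g * q).1 1 1) := by
    rw [e3]
    exact Valuation.map_add_eq_of_lt_right _ (v1.trans_lt v3)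
  refine ⟨?_, ?_⟩
  · rw [v4, e4, v2]
    exact v3
  · rw [v4]
    exact hq2.trans v3

theorem pp (d : Adm v M H) : PP (H.subgroupOf (H ⊔ upper M)) ((upper M).subgroupOf (H ⊔ upper M))
    ((H0 d).subgroupOf (H ⊔ upper M)) {q | (q : (Matrix (Fin 2) (Fin 2) R)ˣ) ∈ PS v} where
  gen := by
    rw [← Subgroup.subgroupOf_sup le_sup_left le_sup_right, Subgroup.subgroupOf_self]
  le := by
    intro x hx
    rw [Subgroup.mem_subgroupOf] at hx ⊢
    exact hx.1
  nor := by
    intro h hh u hu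
    rw [Subgroup.mem_subgroupOf] at hh hu ⊢
    obtain ⟨m, hm, hum⟩ := hu
    refine ⟨h.1.1 0 0 * m * (h.1⁻¹).1 1 1, d.nor _ hh.1 hh.2 m hm, ?_⟩
    rw [← conj_trv d hh.1 hh.2, ← hum]
    rfl
  p1 := by
    intro u hu hu1
    rw [Subgroup.mem_subgroupOf] at hu
    obtain ⟨m, hm, hum⟩ := hu
    show (u : (Matrix (Fin 2) (Fin 2) R)ˣ) ∈ PS v
    rw [hum]
    refine ps1 d hm ?_
    rw [← hum]
    exact fun h => hu1 (Subtype.ext h)
  p2 := by
    intro u hu hu1 g hg hg0 q hq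
    rw [Subgroup.mem_subgroupOf] at hu hg hg0
    obtain ⟨m, hm, hum⟩ := hu
    show ((u * g * q : ↥(H ⊔ upper M)) : (Matrix (Fin 2) (Fin 2) R)ˣ) ∈ PS v
    rw [Subgroup.coe_mul, Subgroup.coe_mul, hum]
    refine ps2 d hm ?_ hg (fun h => hg0 ⟨hg, h⟩) hq
    rw [← hum]
    exact fun h => hu1 (Subtype.ext h)
  p3 := by
    intro q hq hqH
    rw [Subgroup.mem_subgroupOf] at hqH
    exact absurd (d.le _ hqH 0 1) (not_le.2 hq.2)

/-- mapping tori of abelian groups are solvable -/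
theorem tori_ab (hS : ∀ (S : Type) [Group S], Group.IsSolvable S → C S) (D : Type) [CommGroup D] :
    Tori C D := by
  intro α
  refine hS _ ?_
  refine Group.isSolvable_of_ker_le_range (SemidirectProduct.inl (φ := zpowersHom (MulAut D) α))
    SemidirectProduct.rightHom ?_
  rw [SemidirectProduct.range_inl_eq_ker_rightHom]

theorem main_mat (hC : ClosedE C) (hF : FbC C) (hS : ∀ (S : Type) [Group S], Group.IsSolvable S → C S)
    (d : Adm v M H) (hH : C H) : C ↥(H ⊔ upper M) := by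
  refine main_pp hC hF (pp d) ?_ ?_
  · exact C_equiv hC.base (Subgroup.subgroupOfEquivOfLe le_sup_left) hH
  · intro g hg
    let e : Multiplicative M →* (upper M) :=
      { toFun := fun m => ⟨trv (m.toAdd : R), m.toAdd, m.toAdd.2, rfl⟩
        map_one' := Subtype.ext trv_zero
        map_mul' := fun m n => Subtype.ext (trv_add _ _) }
    have he : Function.Bijective e := by
      constructor
      · intro m n hmn
        have h1 : trv (m.toAdd : R) = trv (n.toAdd : R) := congrArg Subtype.val hmn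
        exact Multiplicative.toAdd.injective (Subtype.ext (trv_inj h1))
      · rintro ⟨_, m, hm, rfl⟩
        exact ⟨Multiplicative.ofAdd ⟨m, hm⟩, rfl⟩
    exact tori_cyc hC (tori_ab hS (Multiplicative M)) _
      ((Subgroup.subgroupOfEquivOfLe le_sup_right).trans (MulEquiv.ofBijective e he).symm) g hg

end main

end Pool.Agent.W5h2.GE
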