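import Pool.Agent.R684.FP.Main

/-!
# Groups generated by two subgroups with a ping-pong property
-/

set_option autoImplicit false

namespace Pool.Agent.W5h2.GE

open Pool.Agent.Y110.FJ
open Pool.Agent.R941.FJ (C_equiv C_le C_cyc mem_sup_normal)
open Pool.Agent.R684.FP (IsFreeProd FbC main_all)
open Pool.Agent.Y462.SS (Closed)

variable {C : ∀ (G : Type) [Group G], Prop}

/-- `H` and `U` generate `G`, the subgroup `H0` of `H` normalizes `U`, and the elements of
`U \ 1` and `H \ H0` play ping-pong -/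
structure PP {G : Type} [Group G] (H U H0 : Subgroup G) (P : Set G) : Prop where
  gen : H ⊔ U = ⊤
  le : H0 ≤ H
  nor : ∀ h ∈ H0, ∀ u ∈ U, h * u * h⁻¹ ∈ U
  p1 : ∀ u ∈ U, u ≠ 1 → u ∈ P
  p2 : ∀ u ∈ U, u ≠ 1 → ∀ g ∈ H, g ∉ H0 → ∀ q ∈ P, u * g * q ∈ P
  p3 : ∀ q ∈ P, q ∉ H

section main

variable {G : Type} [Group G] {H U H0 : Subgroup G} {P : Set G}

variable (H H0) in
/-- the cosets -/
abbrev Ix : Type := H ⧸ H0.subgroupOf H

/-- representatives -/
noncomputable def tr (i : Ix H H0) : G := (Quotient.out i : H)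

theorem tr_mem (i : Ix H H0) : tr i ∈ H := (Quotient.out i : H).2

theorem tr_eq {i j : Ix H H0} (h : (tr i)⁻¹ * tr j ∈ H0) : i = j := by
  have h1 : (QuotientGroup.mk (Quotient.out i) : Ix H H0) = QuotientGroup.mk (Quotient.out j) := by
    rw [QuotientGroup.eq]
    exact Subgroup.mem_subgroupOf.2 h
  have h2 : (QuotientGroup.mk (Quotient.out i) : Ix H H0) = i := Quotient.out_eq _
  have h3 : (QuotientGroup.mk (Quotient.out j) : Ix H H0) = j := Quotient.out_eq _
  rw [← h2, ← h3, h1]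

theorem tr_ex {g : G} (hg : g ∈ H) : ∃ i : Ix H H0, ∃ h ∈ H0, g = tr i * h := by
  refine ⟨QuotientGroup.mk ⟨g, hg⟩, (tr (QuotientGroup.mk ⟨g, hg⟩ : Ix H H0))⁻¹ * g, ?_, by group⟩
  have h1 : (QuotientGroup.mk (Quotient.out (QuotientGroup.mk ⟨g, hg⟩ : Ix H H0)) : Ix H H0) =
    QuotientGroup.mk ⟨g, hg⟩ := Quotient.out_eq _
  rw [QuotientGroup.eq] at h1
  exact Subgroup.mem_subgroupOf.1 h1

variable (U) in
/-- the conjugates -/
noncomputable def Cj (i : Ix H H0) : Subgroup G := U.map (MulAut.conj (tr i)).toMonoidHom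

theorem mem_Cj {i : Ix H H0} {x : G} : x ∈ Cj U i ↔ ∃ u ∈ U, x = tr i * u * (tr i)⁻¹ := by
  constructor
  · rintro ⟨u, hu, rfl⟩
    exact ⟨u, hu, rfl⟩
  · rintro ⟨u, hu, rfl⟩
    exact ⟨u, hu, rfl⟩

theorem nor_iff (d : PP H U H0 P) {h : G} (hh : h ∈ H0) (u : G) : u ∈ U ↔ h * u * h⁻¹ ∈ U := by
  refine ⟨d.nor h hh u, fun hu => ?_⟩
  have := d.nor h⁻¹ (inv_mem hh) _ hu
  have h2 : h⁻¹ * (h * u * h⁻¹) * h⁻¹⁻¹ = u := by group
  rwa [h2] at this

theorem word (d : PP H U H0 P) (w : Monoid.CoprodI.Word fun i : Ix H H0 => Cj U i) :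
    w = Monoid.CoprodI.Word.empty ∨ ∃ i, w.fstIdx = some i ∧ ∃ q ∈ P, ∃ h ∈ H,
      Monoid.CoprodI.lift (fun i => (Cj U i).subtype) w.prod = tr i * q * h := by
  induction w using Monoid.CoprodI.Word.consRecOn with
  | empty => exact Or.inl rfl
  | cons i m w h1 h2 ih =>
    right
    refine ⟨i, Monoid.CoprodI.Word.fstIdx_cons (M := fun i : Ix H H0 => Cj U i) m w h1 h2, ?_⟩
    rw [Monoid.CoprodI.Word.prod_cons, map_mul, Monoid.CoprodI.lift_of]
    obtain ⟨u, hu, hm⟩ := mem_Cj.1 m.2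
    have hu1 : u ≠ 1 := by
      rintro rfl
      apply h2
      apply Subtype.ext
      rw [hm]
      simp
    rcases ih with rfl | ⟨j, hj, q, hq, h, hh, hw⟩
    · refine ⟨u, d.p1 u hu hu1, (tr i)⁻¹, inv_mem (tr_mem i), ?_⟩
      show (m : G) * _ = _
      rw [hm, Monoid.CoprodI.Word.prod_empty, map_one, mul_one]
    · have hij : (tr i)⁻¹ * tr j ∉ H0 := by
        intro hij
        rw [tr_eq hij] at h1
        exact h1 hj
      refine ⟨u * ((tr i)⁻¹ * tr j) * q, d.p2 u hu hu1 _ (mul_mem (inv_mem (tr_mem i)) (tr_mem j))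
        hij q hq, h, hh, ?_⟩
      show (m : G) * _ = _
      rw [hm, hw]
      group

theorem word_mem (d : PP H U H0 P) (w : Monoid.CoprodI.Word fun i : Ix H H0 => Cj U i)
    (hw : Monoid.CoprodI.lift (fun i => (Cj U i).subtype) w.prod ∈ H) :
    w = Monoid.CoprodI.Word.empty := by
  rcases word d w with h | ⟨i, _, q, hq, h, hh, h1⟩
  · exact h
  · exfalso
    rw [h1] at hw
    refine d.p3 q hq ?_
    have := mul_mem (mul_mem (inv_mem (tr_mem i)) hw) (inv_mem hh)
    have h2 : (tr i)⁻¹ * (tr i * q * h) * h⁻¹ = q := by group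
    rwa [h2] at this

variable (H U H0) in
/-- the subgroup generated by the conjugates -/
noncomputable def Nn : Subgroup G := ⨆ i : Ix H H0, Cj U i

theorem lift_range : (Monoid.CoprodI.lift (fun i : Ix H H0 => (Cj U i).subtype)).range =
    Nn H U H0 := by
  rw [Monoid.CoprodI.range_eq_iSup]
  simp [Nn]

theorem free_prod (d : PP H U H0 P) : IsFreeProd (Nn H U H0) (fun i : Ix H H0 => Cj U i) := by
  refine ⟨rfl, ?_⟩
  classical
  rw [injective_iff_map_eq_one]
  intro x hx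
  obtain ⟨w, rfl⟩ := (Monoid.CoprodI.Word.equiv (M := fun i : Ix H H0 => Cj U i)).symm.surjective x
  have h1 : (Monoid.CoprodI.Word.equiv (M := fun i : Ix H H0 => Cj U i)).symm w = w.prod := rfl
  rw [h1] at hx ⊢
  rw [word_mem d w (by rw [hx]; exact one_mem H)]
  rfl

theorem N_inf (d : PP H U H0 P) {x : G} (hx : x ∈ Nn H U H0) (hxH : x ∈ H) : x = 1 := by
  classical
  rw [← lift_range] at hx
  obtain ⟨y, rfl⟩ := hx
  obtain ⟨w, rfl⟩ := (Monoid.CoprodI.Word.equiv (M := fun i : Ix H H0 => Cj U i)).symm.surjective y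
  have h1 : (Monoid.CoprodI.Word.equiv (M := fun i : Ix H H0 => Cj U i)).symm w = w.prod := rfl
  rw [h1] at hxH ⊢
  rw [word_mem d w hxH]
  exact map_one _

theorem Cj_le (i : Ix H H0) : Cj U i ≤ Nn H U H0 := le_iSup (fun i : Ix H H0 => Cj U i) i

/-- all `H`-conjugates of `U` are among the `Cj` -/
theorem conj_mem_N (d : PP H U H0 P) {h u : G} (hh : h ∈ H) (hu : u ∈ U) :
    h * u * h⁻¹ ∈ Nn H U H0 := by
  obtain ⟨i, h0, hh0, rfl⟩ := tr_ex (H := H) (H0 := H0) hh
  refine Cj_le i (mem_Cj.2 ⟨h0 * u * h0⁻¹, d.nor h0 hh0 u hu, by group⟩)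

theorem U_le (d : PP H U H0 P) : U ≤ Nn H U H0 := by
  intro u hu
  have := conj_mem_N d (one_mem H) hu
  simpa using this

theorem N_conjH (d : PP H U H0 P) {h x : G} (hh : h ∈ H) (hx : x ∈ Nn H U H0) :
    h * x * h⁻¹ ∈ Nn H U H0 := by
  have h1 : Nn H U H0 ≤ (Nn H U H0).comap (MulAut.conj h).toMonoidHom := by
    refine iSup_le fun i x hx => ?_
    obtain ⟨u, hu, rfl⟩ := mem_Cj.1 hx
    show h * (tr i * u * (tr i)⁻¹) * h⁻¹ ∈ Nn H U H0
    have := conj_mem_N d (mul_mem hh (tr_mem i)) hu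
    have h2 : h * (tr i * u * (tr i)⁻¹) * h⁻¹ = h * tr i * u * (h * tr i)⁻¹ := by group
    rwa [h2]
  exact h1 hx

theorem dcmp (d : PP H U H0 P) (g : G) : ∃ n ∈ Nn H U H0, ∃ h ∈ H, g = n * h := by
  have h1 : H ⊔ U ≤ ({ carrier := {g | ∃ n ∈ Nn H U H0, ∃ h ∈ H, g = n * h}
                       one_mem' := ⟨1, one_mem _, 1, one_mem _, (mul_one 1).symm⟩
                       mul_mem' := by
                         rintro _ _ ⟨n, hn, h, hh, rfl⟩ ⟨n', hn', h', hh', rfl⟩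
                         exact ⟨n * (h * n' * h⁻¹), mul_mem hn (N_conjH d hh hn'), h * h',
                           mul_mem hh hh', by group⟩
                       inv_mem' := by
                         rintro _ ⟨n, hn, h, hh, rfl⟩
                         refine ⟨h⁻¹ * n⁻¹ * h⁻¹⁻¹, N_conjH d (inv_mem hh) (inv_mem hn), h⁻¹,
                           inv_mem hh, by group⟩ } : Subgroup G) := by
    refine sup_le ?_ ?_
    · intro h hh
      exact ⟨1, one_mem _, h, hh, (one_mul h).symm⟩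
    · intro u hu
      exact ⟨u, U_le d hu, 1, one_mem _, (mul_one u).symm⟩
  rw [d.gen] at h1
  exact h1 (Subgroup.mem_top g)

theorem N_normal (d : PP H U H0 P) : (Nn H U H0).Normal := by
  refine ⟨fun x hx g => ?_⟩
  obtain ⟨n, hn, h, hh, rfl⟩ := dcmp d g
  have h1 : n * h * x * (n * h)⁻¹ = n * (h * x * h⁻¹) * n⁻¹ := by group
  rw [h1]
  exact mul_mem (mul_mem hn (N_conjH d hh hx)) (inv_mem hn)

/-- **groups generated by subgroups which play ping-pong** -/
theorem main_pp (hC : ClosedE C) (hF : FbC C) (d : PP H U H0 P) (hH : C H)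
    (hU : ∀ g : G, (∀ x, x ∈ U ↔ g * x * g⁻¹ ∈ U) → C ↥(U ⊔ Subgroup.zpowers g)) : C G := by
  have hn := N_normal d
  -- the quotient
  have hQ : C (G ⧸ Nn H U H0) := by
    obtain ⟨f, hf⟩ : ∃ f : H →* G ⧸ Nn H U H0, f = (QuotientGroup.mk' (Nn H U H0)).comp H.subtype :=
      ⟨_, rfl⟩
    have hb : Function.Bijective f := by
      constructor
      · rw [injective_iff_map_eq_one]
        intro x hx
        rw [hf] at hx
        have h1 : (x : G) ∈ Nn H U H0 := (QuotientGroup.eq_one_iff _).1 hx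
        exact Subtype.ext (N_inf d h1 x.2)
      · intro y
        obtain ⟨g, rfl⟩ := QuotientGroup.mk'_surjective _ y
        obtain ⟨n, hn, h, hh, rfl⟩ := dcmp d g
        refine ⟨⟨h, hh⟩, ?_⟩
        rw [hf, map_mul]
        have h1 : QuotientGroup.mk' (Nn H U H0) n = 1 := (QuotientGroup.eq_one_iff _).2 hn
        rw [h1, one_mul]
        rfl
    exact C_equiv hC.base (MulEquiv.ofBijective f hb).symm hH
  refine main_all hC hF hQ (fun i : Ix H H0 => Cj U i) Set.univ (free_prod d)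
    (fun i hi => absurd (Set.mem_univ i) hi) ?_ ?_
  · -- the conjugacy classes are permuted
    intro i _ g
    obtain ⟨n, hn, h, hh, rfl⟩ := dcmp d g
    obtain ⟨j, h0, hh0, hj⟩ := tr_ex (H := H) (H0 := H0) (mul_mem hh (tr_mem i))
    refine ⟨j, Set.mem_univ j, n⁻¹, inv_mem hn, fun x => ?_⟩
    have h1 : n⁻¹ * (n * h * x * (n * h)⁻¹) * n⁻¹⁻¹ = h * x * h⁻¹ := by group
    rw [h1, mem_Cj, mem_Cj]
    constructor
    · rintro ⟨u, hu, rfl⟩
      refine ⟨h0 * u * h0⁻¹, d.nor h0 hh0 u hu, ?_⟩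
      have h2 : h * (tr i * u * (tr i)⁻¹) * h⁻¹ = (h * tr i) * u * (h * tr i)⁻¹ := by group
      rw [h2, hj]
      group
    · rintro ⟨u, hu, hx⟩
      refine ⟨h0⁻¹ * u * h0, ?_, ?_⟩
      · have := d.nor h0⁻¹ (inv_mem hh0) u hu
        rwa [inv_inv] at this
      · have h2 : x = h⁻¹ * (h * x * h⁻¹) * h := by group
        have h3 : tr j = h * tr i * h0⁻¹ := by rw [hj]; group
        rw [h2, hx, h3]
        group
  · -- the cyclic extensions
    intro i _ g hg
    have h1 : ∀ x, x ∈ U ↔ (tr i)⁻¹ * g * tr i * x * ((tr i)⁻¹ * g * tr i)⁻¹ ∈ U := by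
      intro x
      have h2 : x ∈ U ↔ tr i * x * (tr i)⁻¹ ∈ Cj U i := by
        rw [mem_Cj]
        constructor
        · intro hx
          exact ⟨x, hx, rfl⟩
        · rintro ⟨u, hu, hxu⟩
          have : x = u := by
            have := mul_right_cancel hxu
            exact mul_left_cancel this
          rwa [this]
      have h3 : ∀ y, (tr i)⁻¹ * y * tr i ∈ U ↔ y ∈ Cj U i := by
        intro y
        rw [mem_Cj]
        constructor
        · intro hy
          exact ⟨_, hy, by group⟩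
        · rintro ⟨u, hu, rfl⟩
          have : (tr i)⁻¹ * (tr i * u * (tr i)⁻¹) * tr i = u := by group
          rwa [this]
      rw [h2, hg, ← h3]
      have h4 : (tr i)⁻¹ * (g * (tr i * x * (tr i)⁻¹) * g⁻¹) * tr i =
        (tr i)⁻¹ * g * tr i * x * ((tr i)⁻¹ * g * tr i)⁻¹ := by group
      rw [h4]
    have h2 := hU _ h1
    have h3 : Cj U i ⊔ Subgroup.zpowers g =
        (U ⊔ Subgroup.zpowers ((tr i)⁻¹ * g * tr i)).map (MulAut.conj (tr i)).toMonoidHom := by
      rw [Subgroup.map_sup, MonoidHom.map_zpowers]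
      congr 2
      show g = tr i * ((tr i)⁻¹ * g * tr i) * (tr i)⁻¹
      group
    rw [h3]
    exact C_equiv hC.base ((U ⊔ Subgroup.zpowers ((tr i)⁻¹ * g * tr i)).equivMapOfInjective
      (MulAut.conj (tr i)).toMonoidHom (MulAut.conj (tr i)).injective).symm h2

end main

end Pool.Agent.W5h2.GE
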